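import Pool.Agent.Helper74.RN.St

/-!
# Project RN (MP_26f0da_lc): module KKT (words over two labels and signs)
-/

set_option autoImplicit false

namespace Pool.Agent.Helper53.RN

open Pool.Agent.Helper74 Pool.Agent.Helper74.RN
open Pool.Agent.Helper74.WB (OP QW rl enc iv)
open Pool.Agent.Helper74.DI (q2)

/-- The coded word. -/
def vv (w : List ((ℕ × Bool) × Bool)) : List ((Bool × Bool) × Bool) :=
  w.flatMap fun a => (pd a).flatMap q2

/-- The number of supplies. -/
def sg (w : List ((ℕ × Bool) × Bool)) : ℕ := w.countP fun a => a.1.2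

theorem vv_eq (w : List ((ℕ × Bool) × Bool)) : vv w = (w.flatMap pd).flatMap q2 := by
  rw [vv, List.flatMap_assoc]

theorem kk_filter {G : Type} (g : Bool × Bool → G) (w : List ((ℕ × Bool) × Bool)) :
    (w.flatMap (kk g)).filterMap id = (vv w).map fun b => g b.1 := by
  have h0 : ∀ l : List ((Bool × Bool) × Bool),
      (l.map (fun b => some (g b.1))).filterMap id = l.map fun b => g b.1 := by
    intro l
    induction l with
    | nil => rfl
    | cons a l ih => simp
  induction w with
  | nil => rfl
  | cons a w ih =>
    have e : vv (a :: w) = (pd a).flatMap q2 ++ vv w := by simp [vv]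
    rw [List.flatMap_cons, List.filterMap_append, ih, e, List.map_append]
    congr 1
    rw [kk, List.filterMap_append, h0]
    cases a.1.2 <;> simp

theorem kk_length {G : Type} (g : Bool × Bool → G) (w : List ((ℕ × Bool) × Bool)) :
    (w.flatMap (kk g)).length = (vv w).length + sg w := by
  induction w with
  | nil => rfl
  | cons a w ih =>
    have e : vv (a :: w) = (pd a).flatMap q2 ++ vv w := by simp [vv]
    rw [List.flatMap_cons, List.length_append, ih, e, List.length_append, kk,
      List.length_append, List.length_map]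
    have e2 : sg (a :: w) = sg w + (if a.1.2 = true then 1 else 0) := by
      simp [sg, List.countP_cons]
    rw [e2]
    cases a.1.2 <;> simp <;> omega

theorem ng_append (u v : List ((Bool × Bool) × Bool)) : ng (u ++ v) = ng u + ng v := by
  simp [ng]

theorem ng_q2 (a : (ℕ × Bool) × Bool) :
    ng (q2 a) = a.1.1 + (if a.1.2 = true then 0 else 1) := by
  rcases a with ⟨⟨i, s⟩, o⟩
  cases s <;> simp [ng, q2, List.countP_append, List.countP_replicate]

theorem len_q2 (a : (ℕ × Bool) × Bool) : (q2 a).length = 2 * a.1.1 + 1 := by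
  rcases a with ⟨⟨i, s⟩, o⟩
  simp only [q2, List.length_append, List.length_cons, List.length_replicate]
  omega

theorem vv_length (w : List ((ℕ × Bool) × Bool)) :
    (vv w).length = 2 * ng (vv w) + sg w := by
  induction w with
  | nil => rfl
  | cons a w ih =>
    have e : vv (a :: w) = (pd a).flatMap q2 ++ vv w := by simp [vv]
    have e2 : sg (a :: w) = sg w + (if a.1.2 = true then 1 else 0) := by
      simp [sg, List.countP_cons]
    rw [e, List.length_append, ng_append, e2, ih]
    have h3 : ((pd a).flatMap q2).length =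
        2 * ng ((pd a).flatMap q2) + (if a.1.2 = true then 1 else 0) := by
      rcases a with ⟨⟨i, s⟩, o⟩
      cases s
      · simp only [pd, Bool.false_eq_true, if_false, List.flatMap_cons, List.flatMap_nil,
          List.append_nil, List.length_append, ng_append, ng_q2, len_q2, if_true]
        omega
      · simp only [pd, if_true, List.flatMap_cons, List.flatMap_nil,
          List.append_nil, ng_q2, len_q2]
    omega

theorem qw_pd (w : List ((ℕ × Bool) × Bool)) (h : QW w) : QW (w.flatMap pd) := by
  intro b hb
  rw [List.mem_flatMap] at hb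
  obtain ⟨a, ha, hb⟩ := hb
  have h1 := h a ha
  rcases a with ⟨⟨i, s⟩, o⟩
  simp only at h1
  subst h1
  cases o
  · simp only [pd, Bool.false_eq_true, if_false, List.mem_cons, List.not_mem_nil,
      or_false] at hb
    rcases hb with rfl | rfl <;> rfl
  · simp only [pd, if_true, List.mem_cons, List.not_mem_nil, or_false] at hb
    subst hb
    rfl

theorem qw_q2 (w : List ((ℕ × Bool) × Bool)) (h : QW w) : QW (w.flatMap q2) := by
  intro b hb
  rw [List.mem_flatMap] at hb
  obtain ⟨a, ha, hb⟩ := hb
  have h1 := h a ha
  simp only [q2, List.mem_append, List.mem_cons, List.mem_replicate] at hb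
  rcases hb with ⟨_, rfl⟩ | rfl | ⟨_, rfl⟩
  · rfl
  · exact h1
  · rfl

theorem hKKT (hOPF : StOPF) (hPDA : StPDA) (hGMA : StGMA) (hQ2A : DI.StQ2A)
    (hQ2B : DI.StQ2B) : StKKT := by
  intro G R g hg
  constructor
  · intro a h
    have h1 := congrArg List.length h
    rcases a with ⟨⟨i, s⟩, o⟩
    cases s
    · simp [kk, pd, q2] at h1
    · simp [kk, pd, q2] at h1
  · intro w hw
    have hq1 : QW (w.flatMap pd) := qw_pd w hw
    have hqv : QW (vv w) := by
      rw [vv_eq]
      exact qw_q2 _ hq1
    have e1 : OP w ↔ OP (vv w) := by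
      rw [hPDA w, vv_eq]
      exact ⟨hQ2A _ hq1, hQ2B _ hq1⟩
    rw [e1, hOPF Bool (vv w) hqv]
    have key : ∀ k, Fo (fun a b : Bool × Bool => b = iv a) ((vv w).map Prod.fst) k ↔
        Fo R ((vv w).map fun b => g b.1) k := by
      intro k
      rw [hGMA (Bool × Bool) G (fun a b : Bool × Bool => b = iv a) R g hg, List.map_map]
      rfl
    show _ ↔ ∃ k, Fo R ((w.flatMap (kk g)).filterMap id) k ∧
      k + ((w.flatMap (kk g)).filterMap id).length ≤ (w.flatMap (kk g)).length
    rw [kk_filter, kk_length, List.length_map]
    have hl := vv_length w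
    constructor
    · rintro ⟨k, h1, h2⟩
      exact ⟨k, (key k).1 h1, by omega⟩
    · rintro ⟨k, h1, h2⟩
      exact ⟨k, (key k).2 h1, by omega⟩

end Pool.Agent.Helper53.RN
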